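import Mathlib

/-!
# A conditionally flat localization functor on groups that is not an epireflection

The functor `G ↦ ℚ ⊗ G_ab` (rationalised abelianization), with the natural map
`g ↦ 1 ⊗ [g]`, is a localization functor on the category of all groups.  It is conditionally flat
(it is right exact), but its unit is not surjective on `ℤ`.
-/

open CategoryTheory TensorProduct

universe u

namespace Pool.Agent.Results.MP_52d248_al.RationalAbelianization

/-- A localization functor on groups: an endofunctor `L` with a natural transformation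
`η : Id ⟶ L` such that `L (η_G)` and `η_{L G}` are equal isomorphisms for every group `G`. -/
structure LocalizationFunctor where
  /-- the underlying endofunctor -/
  L : GrpCat.{u} ⥤ GrpCat.{u}
  /-- the coaugmentation -/
  η : 𝟭 GrpCat.{u} ⟶ L
  map_η : ∀ G : GrpCat.{u}, L.map (η.app G) = η.app (L.obj G)
  isIso_η : ∀ G : GrpCat.{u}, IsIso (η.app (L.obj G))

/-- `1 → N → E → G → 1` is a short exact sequence of groups. -/
def ShortExact {N E G : Type u} [Group N] [Group E] [Group G] (i : N →* E) (p : E →* G) : Prop :=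
  Function.Injective i ∧ Function.Surjective p ∧ i.range = p.ker

/-- The localization functor `F` is an epireflection: every `η_G : G → L G` is surjective. -/
def LocalizationFunctor.IsEpireflection (F : LocalizationFunctor.{u}) : Prop :=
  ∀ G : GrpCat.{u}, Function.Surjective (F.η.app G).hom

/-- The extension `1 → N → E → G → 1` is `L`-flat: it is an extension, and
`1 → L N → L E → L G → 1` is again short exact. -/
def LocalizationFunctor.Flat (F : LocalizationFunctor.{u}) {N E G : Type u} [Group N] [Group E]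
    [Group G] (i : N →* E) (p : E →* G) : Prop :=
  ShortExact i p ∧
    ShortExact (F.L.map (GrpCat.ofHom i)).hom (F.L.map (GrpCat.ofHom p)).hom

/-- The pullback group `E ×_G H`. -/
def pullbackGroup {E G H : Type u} [Group E] [Group G] [Group H] (p : E →* G) (f : H →* G) :
    Subgroup (E × H) where
  carrier := {x | p x.1 = f x.2}
  mul_mem' := by
    intro a b ha hb
    simp only [Set.mem_ofPred_eq, Prod.fst_mul, Prod.snd_mul, map_mul] at *
    rw [ha, hb]
  one_mem' := by simp
  inv_mem' := by
    intro a ha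
    simp only [Set.mem_ofPred_eq, Prod.fst_inv, Prod.snd_inv, map_inv] at *
    rw [ha]

/-- The map `N → E ×_G H`, `n ↦ (i n, 1)`. -/
def pullbackInl {N E G H : Type u} [Group N] [Group E] [Group G] [Group H] (i : N →* E)
    (p : E →* G) (f : H →* G) (h : ∀ n, p (i n) = 1) : N →* pullbackGroup p f where
  toFun n := ⟨(i n, 1), by simp [pullbackGroup, h]⟩
  map_one' := by ext <;> simp
  map_mul' a b := by ext <;> simp

/-- The projection `E ×_G H → H`. -/
def pullbackSnd {E G H : Type u} [Group E] [Group G] [Group H] (p : E →* G) (f : H →* G) :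
    pullbackGroup p f →* H :=
  (MonoidHom.snd E H).comp (pullbackGroup p f).subtype

/-- The localization functor `F` is conditionally flat: for every `L`-flat extension
`1 → N → E → G → 1` and every homomorphism `f : H → G`, the pulled-back extension
`1 → N → E ×_G H → H → 1` is `L`-flat. -/
def LocalizationFunctor.ConditionallyFlat (F : LocalizationFunctor.{u}) : Prop :=
  ∀ (N E G H : Type u) [Group N] [Group E] [Group G] [Group H] (i : N →* E) (p : E →* G)
    (f : H →* G) (hp : ∀ n, p (i n) = 1), F.Flat i p →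
      F.Flat (pullbackInl i p f hp) (pullbackSnd p f)

/-! ### The functor `G ↦ ℚ ⊗ G_ab` -/

/-- `ℚ ⊗ G_ab` as an additive group. -/
abbrev QAb (G : Type u) [Group G] : Type u := ℚ ⊗[ℤ] (Additive (Abelianization G))

/-- The induced map on `ℚ ⊗ G_ab`. -/
noncomputable def qmap {G H : Type u} [Group G] [Group H] (f : G →* H) :
    QAb G →ₗ[ℤ] QAb H :=
  LinearMap.lTensor ℚ (MonoidHom.toAdditive (Abelianization.map f)).toIntLinearMap

theorem qmap_tmul {G H : Type u} [Group G] [Group H] (f : G →* H) (q : ℚ) (g : G) :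
    qmap f (q ⊗ₜ Additive.ofMul (Abelianization.of g)) =
      q ⊗ₜ Additive.ofMul (Abelianization.of (f g)) := rfl

theorem QAb.hom_ext {G : Type u} [Group G] {A : Type*} [AddCommGroup A] (a b : QAb G →ₗ[ℤ] A)
    (h : ∀ (q : ℚ) (g : G), a (q ⊗ₜ Additive.ofMul (Abelianization.of g)) =
      b (q ⊗ₜ Additive.ofMul (Abelianization.of g))) : a = b := by
  apply TensorProduct.ext'
  intro q x
  obtain ⟨g, hg⟩ : ∃ g : G, Abelianization.of g = x.toMul := QuotientGroup.mk_surjective x.toMul
  have := h q g
  rw [hg] at this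
  exact this

theorem qmap_id (G : Type u) [Group G] : qmap (MonoidHom.id G) = LinearMap.id :=
  QAb.hom_ext _ _ fun q g => by rw [qmap_tmul]; rfl

theorem qmap_comp {G H K : Type u} [Group G] [Group H] [Group K] (f : G →* H) (g : H →* K) :
    qmap (g.comp f) = (qmap g).comp (qmap f) :=
  QAb.hom_ext _ _ fun q x => by
    rw [LinearMap.comp_apply, qmap_tmul, qmap_tmul, qmap_tmul]; rfl

/-- The functor `G ↦ ℚ ⊗ G_ab`. -/
noncomputable def LQ : GrpCat.{u} ⥤ GrpCat.{u} where
  obj G := GrpCat.of (Multiplicative (QAb G))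
  map {G H} f := GrpCat.ofHom (AddMonoidHom.toMultiplicative (qmap f.hom).toAddMonoidHom)
  map_id G := by
    rw [GrpCat.hom_id, qmap_id]
    rfl
  map_comp {G H K} f g := by
    rw [GrpCat.hom_comp, qmap_comp]
    rfl

/-- The unit `g ↦ 1 ⊗ [g]`. -/
noncomputable def unitHom (G : Type u) [Group G] : G →* Multiplicative (QAb G) where
  toFun g := Multiplicative.ofAdd ((1 : ℚ) ⊗ₜ Additive.ofMul (Abelianization.of g))
  map_one' := by
    rw [map_one, ofMul_one, TensorProduct.tmul_zero]; rfl
  map_mul' a b := by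
    rw [map_mul, ofMul_mul, TensorProduct.tmul_add]; rfl

/-- The natural transformation `Id ⟶ ℚ ⊗ (-)_ab`. -/
noncomputable def etaQ : 𝟭 GrpCat.{u} ⟶ LQ where
  app G := GrpCat.ofHom (unitHom G)
  naturality {G H} f := by
    ext x
    rfl

theorem one_tmul_smul {V : Type u} [AddCommGroup V] [Module ℚ V] (q : ℚ) (v : V) :
    (1 : ℚ) ⊗ₜ[ℤ] (q • v) = q ⊗ₜ[ℤ] v := by
  have hd : (q.den : ℚ) ≠ 0 := by exact_mod_cast q.den_ne_zero
  have h1 : (q.den : ℚ) * q = q.num := by
    rw [mul_comm]; exact Rat.mul_den_eq_num q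
  have h2 : (q.den : ℤ) • (q • v) = q.num • v := by
    have h1' : ((q.den : ℤ) : ℚ) * q = (q.num : ℚ) := by exact_mod_cast h1
    rw [← Int.cast_smul_eq_zsmul ℚ, ← Int.cast_smul_eq_zsmul ℚ, smul_smul, h1']
  have h3 : (q.den : ℤ) • ((1 : ℚ) ⊗ₜ[ℤ] (q • v)) = (q.den : ℤ) • (q ⊗ₜ[ℤ] v) := by
    have e1 : (q.den : ℤ) • q = q.num • (1 : ℚ) := by
      rw [zsmul_eq_mul, zsmul_eq_mul, mul_one]
      exact_mod_cast h1
    rw [← TensorProduct.tmul_smul, h2, ← TensorProduct.smul_tmul, TensorProduct.smul_tmul', e1]
  have h4 : (q.den : ℚ) • ((1 : ℚ) ⊗ₜ[ℤ] (q • v)) = (q.den : ℚ) • (q ⊗ₜ[ℤ] v) := by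
    have e : ∀ z : ℚ ⊗[ℤ] V, (q.den : ℚ) • z = (q.den : ℤ) • z := by
      intro z
      rw [← Int.cast_smul_eq_zsmul ℚ]
      push_cast
      rfl
    rw [e, e, h3]
  exact smul_right_injective _ hd h4

/-- For a rational vector space `V`, the map `V → ℚ ⊗ V`, `v ↦ 1 ⊗ v`, is bijective. -/
theorem one_tmul_bijective (V : Type u) [AddCommGroup V] [Module ℚ V] :
    Function.Bijective (fun v : V => (1 : ℚ) ⊗ₜ[ℤ] v) := by
  let g : ℚ ⊗[ℤ] V →ₗ[ℤ] V := TensorProduct.lift
    (LinearMap.mk₂ ℤ (fun (q : ℚ) (v : V) => q • v) (fun a b v => add_smul a b v)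
      (fun n q v => by rw [zsmul_eq_mul, mul_smul, Int.cast_smul_eq_zsmul])
      (fun q v w => smul_add q v w)
      (fun n q v => by rw [smul_comm]))
  have hg : ∀ (q : ℚ) (v : V), g (q ⊗ₜ v) = q • v := fun q v => TensorProduct.lift.tmul _ _
  constructor
  · intro v w h
    have := congrArg g h
    simpa [hg] using this
  · intro x
    refine ⟨g x, ?_⟩
    induction x using TensorProduct.induction_on with
    | zero => simp
    | tmul q v => simp only [hg]; exact one_tmul_smul q v
    | add a b ha hb => simp only [map_add, TensorProduct.tmul_add, ha, hb]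

/-- The abelianization of a commutative group. -/
theorem of_bijective (A : Type u) [CommGroup A] :
    Function.Bijective (Abelianization.of : A →* Abelianization A) :=
  Abelianization.equivOfComm.bijective

/-- The identification `ℚ ⊗ V ≃ ℚ ⊗ (V_ab)` for a commutative group `V`. -/
noncomputable def commEquiv (V : Type u) [AddCommGroup V] :
    (ℚ ⊗[ℤ] V) ≃ₗ[ℤ] QAb (Multiplicative V) :=
  LinearEquiv.lTensor ℚ (((AddEquiv.additiveMultiplicative V).symm.trans
      (MulEquiv.toAdditive (Abelianization.equivOfComm (H := Multiplicative V)))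
        ).toIntLinearEquiv)

theorem commEquiv_tmul (V : Type u) [AddCommGroup V] (q : ℚ) (v : V) :
    commEquiv V (q ⊗ₜ v) =
      q ⊗ₜ Additive.ofMul (Abelianization.of (Multiplicative.ofAdd v)) := rfl

theorem unitHom_bijective (V : Type u) [AddCommGroup V] [Module ℚ V] :
    Function.Bijective (unitHom (Multiplicative V)) := by
  have h : (fun v : Multiplicative V => (unitHom (Multiplicative V) v).toAdd) =
      fun v => commEquiv V ((1 : ℚ) ⊗ₜ[ℤ] (v.toAdd)) := by
    funext v
    rfl
  have hb : Function.Bijective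
      (fun v : Multiplicative V => commEquiv V ((1 : ℚ) ⊗ₜ[ℤ] (v.toAdd))) :=
    (commEquiv V).bijective.comp ((one_tmul_bijective V).comp Multiplicative.toAdd.bijective)
  rw [← h] at hb
  exact hb

/-! ### Right exactness -/

theorem map_ab_exact {N E G : Type u} [Group N] [Group E] [Group G] (i : N →* E) (p : E →* G)
    (h : ShortExact i p) (x : E) (hx : Abelianization.of (p x) = 1) :
    ∃ n : N, Abelianization.of x = Abelianization.of (i n) := by
  obtain ⟨-, hsurj, hexact⟩ := h
  have h1 : p x ∈ commutator G := by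
    rw [← Abelianization.ker_of]; exact hx
  have h2 : commutator G = (commutator E).map p := by
    rw [commutator_def, commutator_def, Subgroup.map_commutator,
      Subgroup.map_top_of_surjective p hsurj]
  rw [h2] at h1
  obtain ⟨c, hc, hcx⟩ := h1
  have h3 : x * c⁻¹ ∈ p.ker := by
    rw [MonoidHom.mem_ker, map_mul, map_inv, hcx, mul_inv_cancel]
  rw [← hexact] at h3
  obtain ⟨n, hn⟩ := h3
  refine ⟨n, ?_⟩
  have h4 : Abelianization.of c = 1 := by
    have : c ∈ (Abelianization.of : E →* Abelianization E).ker := by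
      rw [Abelianization.ker_of]; exact hc
    exact this
  rw [hn, map_mul, map_inv, h4, inv_one, mul_one]

theorem qmap_exact {N E G : Type u} [Group N] [Group E] [Group G] (i : N →* E) (p : E →* G)
    (h : ShortExact i p) :
    Function.Exact (qmap i) (qmap p) ∧ Function.Surjective (qmap p) := by
  have hs : Function.Surjective
      (MonoidHom.toAdditive (Abelianization.map p)).toIntLinearMap := by
    intro y
    obtain ⟨g, hg⟩ : ∃ g : G, Abelianization.of g = y.toMul := QuotientGroup.mk_surjective y.toMul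
    obtain ⟨x, rfl⟩ := h.2.1 g
    exact ⟨Additive.ofMul (Abelianization.of x), hg⟩
  refine ⟨lTensor_exact ℚ ?_ hs, LinearMap.lTensor_surjective ℚ hs⟩
  intro y
  obtain ⟨x, hx⟩ : ∃ x : E, Abelianization.of x = y.toMul := QuotientGroup.mk_surjective y.toMul
  constructor
  · intro hy
    have h1 : Abelianization.of (p x) = 1 := by
      have : (Abelianization.map p) y.toMul = 1 := hy
      rw [← hx] at this
      exact this
    obtain ⟨n, hn⟩ := map_ab_exact i p h x h1
    refine ⟨Additive.ofMul (Abelianization.of n), ?_⟩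
    rw [hx] at hn
    exact hn.symm
  · rintro ⟨z, rfl⟩
    obtain ⟨n, hn⟩ : ∃ n : N, Abelianization.of n = z.toMul := QuotientGroup.mk_surjective z.toMul
    have h1 : p (i n) = 1 := by
      have : i n ∈ p.ker := by rw [← h.2.2]; exact ⟨n, rfl⟩
      exact this
    have h2 : Abelianization.map p (Abelianization.map i z.toMul) = 1 := by
      rw [← hn]
      show Abelianization.of (p (i n)) = 1
      rw [h1, map_one]
    exact h2

theorem LQ_hom {G H : Type u} [Group G] [Group H] (f : G →* H) (x : QAb G) :
    (LQ.map (GrpCat.ofHom f)).hom (Multiplicative.ofAdd x) = Multiplicative.ofAdd (qmap f x) := rfl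

theorem flat_iff {N E G : Type u} [Group N] [Group E] [Group G] (i : N →* E) (p : E →* G)
    (h : ShortExact i p) :
    ShortExact (LQ.map (GrpCat.ofHom i)).hom (LQ.map (GrpCat.ofHom p)).hom ↔
      Function.Injective (qmap i) := by
  constructor
  · intro h' x y hxy
    exact h'.1 (a₁ := Multiplicative.ofAdd x) (a₂ := Multiplicative.ofAdd y)
      (congrArg Multiplicative.ofAdd hxy)
  · intro hi
    refine ⟨fun x y hxy => ?_, fun y => ?_, ?_⟩
    · exact hi (a₁ := x.toAdd) (a₂ := y.toAdd) hxy
    · obtain ⟨x, hx⟩ := (qmap_exact i p h).2 y.toAdd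
      exact ⟨Multiplicative.ofAdd x, hx⟩
    · ext x
      constructor
      · rintro ⟨n, rfl⟩
        exact ((qmap_exact i p h).1 _).2 ⟨n.toAdd, rfl⟩
      · intro hx
        obtain ⟨n, hn⟩ := ((qmap_exact i p h).1 x.toAdd).1 hx
        exact ⟨Multiplicative.ofAdd n, hn⟩

/-- The localization functor `G ↦ ℚ ⊗ G_ab`. -/
noncomputable def locQ : LocalizationFunctor.{u} where
  L := LQ
  η := etaQ
  map_η G := by
    ext x
    have h : qmap (unitHom G) x.toAdd =
        ((1 : ℚ) ⊗ₜ Additive.ofMul (Abelianization.of x) : QAb (Multiplicative (QAb G))) := by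
      have key : ∀ y : QAb G, qmap (unitHom G) y =
        ((1 : ℚ) ⊗ₜ Additive.ofMul (Abelianization.of (Multiplicative.ofAdd y)) :
          QAb (Multiplicative (QAb G))) := by
        intro y
        induction y using TensorProduct.induction_on with
        | zero => 
          rw [map_zero, ofAdd_zero, map_one, ofMul_one, TensorProduct.tmul_zero]
        | tmul q a =>
          obtain ⟨g, hg⟩ : ∃ g : G, Abelianization.of g = a.toMul :=
            QuotientGroup.mk_surjective a.toMul
          obtain rfl : a = Additive.ofMul (Abelianization.of g) := by rw [hg]; rfl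
          rw [qmap_tmul]
          have e1 := commEquiv_tmul (QAb G) q
            ((1 : ℚ) ⊗ₜ Additive.ofMul (Abelianization.of g))
          have e2 := commEquiv_tmul (QAb G) 1 (q ⊗ₜ Additive.ofMul (Abelianization.of g))
          have e3 : q ⊗ₜ Additive.ofMul (Abelianization.of g) =
              q • ((1 : ℚ) ⊗ₜ Additive.ofMul (Abelianization.of g) : QAb G) := by
            rw [TensorProduct.smul_tmul', smul_eq_mul, mul_one]
          rw [← e2, e3, one_tmul_smul, e1]
          rfl
        | add a b ha hb =>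
          rw [map_add, ha, hb, ofAdd_add, map_mul, ofMul_mul, TensorProduct.tmul_add]
      exact key x.toAdd
    exact congrArg Multiplicative.ofAdd h
  isIso_η G := by
    rw [ConcreteCategory.isIso_iff_bijective]
    exact unitHom_bijective (QAb G)

theorem pullback_shortExact {N E G H : Type u} [Group N] [Group E] [Group G] [Group H]
    (i : N →* E) (p : E →* G) (f : H →* G) (hp : ∀ n, p (i n) = 1) (h : ShortExact i p) :
    ShortExact (pullbackInl i p f hp) (pullbackSnd p f) := by
  obtain ⟨hi, hs, he⟩ := h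
  refine ⟨?_, ?_, ?_⟩
  · intro a b hab
    exact hi (congrArg (fun x : pullbackGroup p f => x.1.1) hab)
  · intro y
    obtain ⟨x, hx⟩ := hs (f y)
    exact ⟨⟨(x, y), hx⟩, rfl⟩
  · ext x
    constructor
    · rintro ⟨n, rfl⟩
      rfl
    · intro hx
      have hx2 : x.1.2 = 1 := hx
      have hx1 : x.1.1 ∈ p.ker := by
        have : p x.1.1 = f x.1.2 := x.2
        rw [MonoidHom.mem_ker, this, hx2, map_one]
      rw [← he] at hx1
      obtain ⟨n, hn⟩ := hx1
      exact ⟨n, Subtype.ext (Prod.ext hn hx2.symm)⟩

theorem locQ_conditionallyFlat : (locQ.{u}).ConditionallyFlat := by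
  intro N E G H _ _ _ _ i p f hp h
  refine ⟨pullback_shortExact i p f hp h.1, ?_⟩
  show ShortExact (LQ.map (GrpCat.ofHom (pullbackInl i p f hp))).hom
    (LQ.map (GrpCat.ofHom (pullbackSnd p f))).hom
  rw [flat_iff _ _ (pullback_shortExact i p f hp h.1)]
  have h1 : Function.Injective (qmap i) := (flat_iff i p h.1).1 h.2
  have h2 : i = ((MonoidHom.fst E H).comp (pullbackGroup p f).subtype).comp
      (pullbackInl i p f hp) := by
    ext n; rfl
  rw [h2, qmap_comp] at h1
  exact Function.Injective.of_comp h1

theorem locQ_not_epireflection : ¬ (locQ.{u}).IsEpireflection := by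
  intro h
  -- the group `ℤ` in the universe `u`
  let Z : Type u := Multiplicative (ULift.{u} ℤ)
  let d : Z →* Multiplicative ℤ :=
    AddMonoidHom.toMultiplicative (AddEquiv.ulift : ULift.{u} ℤ ≃+ ℤ).toAddMonoidHom
  let d' : Additive (Abelianization Z) →+ ℤ :=
    (AddEquiv.additiveMultiplicative ℤ).toAddMonoidHom.comp
      (MonoidHom.toAdditive (Abelianization.lift d))
  let g : QAb Z →ₗ[ℤ] ℚ := TensorProduct.lift
    (LinearMap.mk₂ ℤ (fun (q : ℚ) (v : Additive (Abelianization Z)) => q * (d' v : ℚ))
      (fun a b v => add_mul a b _)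
      (fun n q v => by rw [zsmul_eq_mul, zsmul_eq_mul, mul_assoc])
      (fun q v w => by rw [map_add]; push_cast; ring)
      (fun n q v => by rw [map_zsmul, zsmul_eq_mul, zsmul_eq_mul]; push_cast; ring))
  let one : Z := Multiplicative.ofAdd (ULift.up 1)
  obtain ⟨z, hz⟩ := h (GrpCat.of Z)
    (Multiplicative.ofAdd ((1 / 2 : ℚ) ⊗ₜ Additive.ofMul (Abelianization.of one)))
  have hz' : ((1 : ℚ) ⊗ₜ Additive.ofMul (Abelianization.of (z : Z)) : QAb Z) =
    (1 / 2 : ℚ) ⊗ₜ Additive.ofMul (Abelianization.of one) := hz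
  have h1 := congrArg g hz'
  have h2 : (1 : ℚ) * ((d' (Additive.ofMul (Abelianization.of (z : Z))) : ℤ) : ℚ) =
    (1 / 2 : ℚ) * ((1 : ℤ) : ℚ) := h1
  generalize d' (Additive.ofMul (Abelianization.of (z : Z))) = m at h2
  have h3 : (2 * m : ℤ) = 1 := by
    have : (2 * (m : ℚ)) = 1 := by push_cast at h2; linarith
    exact_mod_cast this
  omega

/-- There is a conditionally flat localization functor on the category of groups which is not
an epireflection. -/
theorem result : ∃ F : LocalizationFunctor.{u}, F.ConditionallyFlat ∧ ¬ F.IsEpireflection :=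
  ⟨locQ, locQ_conditionallyFlat, locQ_not_epireflection⟩

end Pool.Agent.Results.MP_52d248_al.RationalAbelianization
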